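import Mathlib

set_option autoImplicit false
set_option linter.unusedSectionVars false

namespace Pool.Agent.H.MP_840fa9_an

open Set Filter Topology Real
open scoped Uniformity

noncomputable def g (t : ℝ) : ℂ := Complex.exp (Complex.I * (t : ℂ) ^ 2)

noncomputable def th (t : ℝ) : ℝ := if 0 ≤ t then √(t ^ 2 + π) else -√(t ^ 2 + π)

noncomputable def ee (b t : ℝ) : ℂ := Complex.exp (Complex.I * ((2 * b * t + b ^ 2 : ℝ) : ℂ))

lemma norm_g (t : ℝ) : ‖g t‖ = 1 := by
  rw [g, ← Complex.ofReal_pow, mul_comm, Complex.norm_exp_ofReal_mul_I]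

lemma norm_ee (b t : ℝ) : ‖ee b t‖ = 1 := by
  rw [ee, mul_comm, Complex.norm_exp_ofReal_mul_I]

lemma cont_g : Continuous g := by unfold g; fun_prop

lemma th_sq (t : ℝ) : th t ^ 2 = t ^ 2 + π := by
  have : 0 ≤ t ^ 2 + π := by positivity
  unfold th; split_ifs <;> simp [Real.sq_sqrt this]

lemma g_th (t : ℝ) : g (th t) = -g t := by
  rw [g, g, ← Complex.ofReal_pow, th_sq]; push_cast
  rw [mul_add, Complex.exp_add, mul_comm Complex.I (π : ℂ), Complex.exp_pi_mul_I]; ring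

lemma g_add (t b : ℝ) : g (t + b) = g t * ee b t := by
  rw [g, g, ee, ← Complex.exp_add]; congr 1; push_cast; ring

lemma ee_shift {b : ℝ} (hb : 0 < b) (t : ℝ) : ee b (t + π / (2 * b)) = -ee b t := by
  have : 2 * b * (t + π / (2 * b)) + b ^ 2 = (2 * b * t + b ^ 2) + π := by field_simp; ring
  rw [ee, ee, this, Complex.ofReal_add, mul_add, Complex.exp_add, mul_comm Complex.I (π : ℂ),
    Complex.exp_pi_mul_I]; ring

lemma ee_lip {b : ℝ} (hb : 0 < b) (s t : ℝ) : ‖ee b s - ee b t‖ ≤ 2 * b * |s - t| := by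
  have h : ee b s - ee b t = ee b t * (Complex.exp (Complex.I * ((2 * b * (s - t) : ℝ) : ℂ)) - 1) := by
    rw [mul_sub, mul_one, ee, ee, ← Complex.exp_add]; congr 2; push_cast; ring
  rw [h, norm_mul, norm_ee, one_mul]
  refine (Real.norm_exp_I_mul_ofReal_sub_one_le).trans (le_of_eq ?_)
  rw [Real.norm_eq_abs, abs_mul, abs_of_pos (by positivity : 0 < 2 * b)]

lemma th_pos {t : ℝ} (h : 0 ≤ t) : t ≤ th t := by
  rw [th, if_pos h]
  exact Real.le_sqrt_of_sq_le (by linarith [pi_pos])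

lemma th_neg {t : ℝ} (h : t < 0) : th t ≤ t := by
  rw [th, if_neg (not_le.mpr h), neg_le]
  exact Real.le_sqrt_of_sq_le (by nlinarith [pi_pos])

lemma th_close (t : ℝ) : |th t - t| * |t| ≤ 2 := by
  have h1 := th_sq t
  have h4 := pi_le_four
  rcases le_or_gt 0 t with h | h
  · have := th_pos h
    rw [abs_of_nonneg h, abs_of_nonneg (by linarith)]; nlinarith
  · have := th_neg h
    rw [abs_of_neg h, abs_of_nonpos (by linarith)]; nlinarith

lemma th_le_one {t : ℝ} (h : 2 ≤ |t|) : |th t - t| ≤ 1 := by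
  have := th_close t
  nlinarith [abs_nonneg (th t - t)]

lemma cont_th {t : ℝ} (h : t ≠ 0) : ContinuousAt th t := by
  rcases lt_or_gt_of_ne h with h | h
  · refine ContinuousAt.congr (f := fun t => -√(t ^ 2 + π)) (by fun_prop) ?_
    filter_upwards [Iio_mem_nhds h] with s hs
    rw [th, if_neg (not_le.mpr hs)]
  · refine ContinuousAt.congr (f := fun t => √(t ^ 2 + π)) (by fun_prop) ?_
    filter_upwards [Ioi_mem_nhds h] with s hs
    rw [th, if_pos (le_of_lt hs)]

structure Adm (J : Set ℝ) (R : ℝ) : Prop where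
  two : 2 ≤ R
  up : ∀ s ∈ J, ∀ t, s ≤ t → t ∈ J
  pos : R - 1 ∈ J
  neg : J = univ ∨ ∀ t ∈ J, -R + 1 ≤ t

variable {J : Set ℝ} {R : ℝ}

lemma Adm.big (h : Adm J R) {t : ℝ} (ht : t ∈ J) (hR : R ≤ |t|) : J = univ ∨ R ≤ t := by
  rcases h.neg with h1 | h1
  · exact Or.inl h1
  · right
    have := h1 t ht
    rcases le_or_gt 0 t with h2 | h2
    · rwa [abs_of_nonneg h2] at hR
    · rw [abs_of_neg h2] at hR; linarith

lemma Adm.nhds_of (h : Adm J R) {t : ℝ} (ht : R ≤ t) : J ∈ 𝓝 t :=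
  mem_of_superset (Ioi_mem_nhds (show R - 1 < t by linarith)) fun s hs => h.up _ h.pos _ (le_of_lt hs)

lemma Adm.nhds (h : Adm J R) {t : ℝ} (ht : t ∈ J) (hR : R ≤ |t|) : J ∈ 𝓝 t ∧ J ∈ 𝓝 (th t) := by
  rcases h.big ht hR with h1 | h1
  · simp [h1]
  · exact ⟨h.nhds_of h1, h.nhds_of (h1.trans (th_pos (by linarith [h.two])))⟩

lemma Adm.th_mem (h : Adm J R) {t : ℝ} (ht : t ∈ J) (hR : R ≤ |t|) : th t ∈ J :=
  mem_of_mem_nhds (h.nhds ht hR).2

lemma Adm.out (h : Adm J R) {t : ℝ} (ht : t ∉ J) (hR : R ≤ |t|) : Jᶜ ∈ 𝓝 t := by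
  rcases h.neg with h1 | h1
  · simp [h1] at ht
  · have h2 : t < R - 1 := lt_of_not_ge fun h3 => ht (h.up _ h.pos _ h3)
    have h3 : t ≤ -R := by
      rcases le_or_gt 0 t with h4 | h4
      · rw [abs_of_nonneg h4] at hR; linarith
      · rw [abs_of_neg h4] at hR; linarith
    filter_upwards [Iio_mem_nhds (show t < -R + 1 by linarith)] with s hs hs'
    exact absurd (h1 s hs') (not_le.mpr hs)

variable {X : Type*} [NormedAddCommGroup X] [NormedSpace ℂ X]

lemma growth (h : Adm J R) {v : ℝ → X} (hv : UniformContinuousOn v J) :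
    ∃ C, 0 ≤ C ∧ ∀ s ∈ J, ∀ t ∈ J, ‖v s - v t‖ ≤ C * (1 + |s - t|) := by
  obtain ⟨δ, hδ, h1⟩ := Metric.uniformContinuousOn_iff.mp hv 1 one_pos
  have key : ∀ n : ℕ, ∀ s ∈ J, ∀ t, s ≤ t → t - s ≤ n * (δ / 2) → ‖v s - v t‖ ≤ n := by
    intro n
    induction n with
    | zero =>
      intro s _ t h2 h3
      have : s = t := by simp at h3; linarith
      simp [this]
    | succ n ih =>
      intro s hs t h2 h3
      push_cast at h3 ⊢
      rcases le_or_gt (t - s) (δ / 2) with h4 | h4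
      · have := h1 s hs t (h.up s hs t h2) (by
          rw [Real.dist_eq, abs_of_nonpos (by linarith)]; linarith)
        rw [dist_eq_norm] at this
        have h5 : (0 : ℝ) ≤ n := n.cast_nonneg
        linarith
      · have hm : s + δ / 2 ∈ J := h.up s hs _ (by linarith)
        have a1 := h1 s hs _ hm (by rw [Real.dist_eq, abs_of_nonpos (by linarith)]; linarith)
        rw [dist_eq_norm] at a1
        have a2 := ih _ hm t (by linarith) (by linarith)
        have := norm_sub_le_norm_sub_add_norm_sub (v s) (v (s + δ / 2)) (v t)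
        linarith
  have key2 : ∀ s ∈ J, ∀ t, s ≤ t → ‖v s - v t‖ ≤ (1 + 2 / δ) * (1 + (t - s)) := by
    intro s hs t h2
    have h3 : 0 ≤ (t - s) / (δ / 2) := div_nonneg (by linarith) (by positivity)
    refine (key ⌈(t - s) / (δ / 2)⌉₊ s hs t h2 ?_).trans ?_
    · rw [← div_le_iff₀ (by positivity)]; exact Nat.le_ceil _
    · refine (Nat.ceil_lt_add_one h3).le.trans ?_
      have e : (t - s) / (δ / 2) = 2 / δ * (t - s) := by field_simp
      have : 0 < 2 / δ := by positivity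
      rw [e]; nlinarith
  refine ⟨1 + 2 / δ, by positivity, fun s hs t ht => ?_⟩
  rcases le_total s t with h2 | h2
  · rw [abs_of_nonpos (by linarith), neg_sub]; exact key2 s hs t h2
  · rw [abs_of_nonneg (by linarith), norm_sub_rev]; exact key2 t ht s h2

def Bd (S : Set ℝ) (F : ℝ → X) : Prop := ∃ K, ∀ t ∈ S, ‖F t‖ ≤ K

lemma Bd.add {S : Set ℝ} {F G : ℝ → X} (h1 : Bd S F) (h2 : Bd S G) : Bd S (fun t => F t + G t) := by
  obtain ⟨K, h1⟩ := h1
  obtain ⟨L, h2⟩ := h2
  exact ⟨K + L, fun t ht => (norm_add_le _ _).trans (add_le_add (h1 t ht) (h2 t ht))⟩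

lemma Bd.sub {S : Set ℝ} {F G : ℝ → X} (h1 : Bd S F) (h2 : Bd S G) : Bd S (fun t => F t - G t) := by
  obtain ⟨K, h1⟩ := h1
  obtain ⟨L, h2⟩ := h2
  exact ⟨K + L, fun t ht => (norm_sub_le _ _).trans (add_le_add (h1 t ht) (h2 t ht))⟩

lemma Bd.smul {S : Set ℝ} {F : ℝ → X} (h1 : Bd S F) (c : ℝ → ℂ) (hc : ∀ t, ‖c t‖ = 1) :
    Bd S (fun t => c t • F t) := by
  obtain ⟨K, h1⟩ := h1
  exact ⟨K, fun t ht => by rw [norm_smul, hc, one_mul]; exact h1 t ht⟩

lemma Bd.of_smul {S : Set ℝ} {F G : ℝ → X} (h1 : Bd S F) (c : ℝ → ℂ) (hc : ∀ t, 1 ≤ ‖c t‖)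
    (e : ∀ t ∈ S, F t = c t • G t) : Bd S G := by
  obtain ⟨K, h1⟩ := h1
  refine ⟨K, fun t ht => le_trans ?_ (h1 t ht)⟩
  rw [e t ht, norm_smul]
  exact le_mul_of_one_le_left (norm_nonneg _) (hc t)

lemma Bd.inc (h : Adm J R) {v : ℝ → X} (hv : UniformContinuousOn v J) {S : Set ℝ} (p q : ℝ → ℝ)
    (M : ℝ) (hpq : ∀ t ∈ S, p t ∈ J ∧ q t ∈ J ∧ |p t - q t| ≤ M) :
    Bd S (fun t => v (p t) - v (q t)) := by
  obtain ⟨C, hC, h1⟩ := growth h hv
  refine ⟨C * (1 + M), fun t ht => (h1 _ (hpq t ht).1 _ (hpq t ht).2.1).trans ?_⟩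
  gcongr; exact (hpq t ht).2.2

lemma v_bdd (h : Adm J R) {b : ℝ} (hb : 0 < b) {u1 v1 u2 v2 : ℝ → X}
    (hu1 : UniformContinuousOn u1 J) (hv1 : UniformContinuousOn v1 J)
    (hu2 : UniformContinuousOn u2 J) (hv2 : UniformContinuousOn v2 J)
    (e : ∀ t ∈ J, u2 t + g t • v2 t = u1 t + g t • v1 t + (u1 (t + b) + g (t + b) • v1 (t + b))) :
    Bd J v1 := by
  have hR := h.two
  let S := {t | t ∈ J ∧ R ≤ |t|}
  have hRJ : R ∈ J := h.up _ h.pos _ (by linarith)
  have i0 : ∀ {v : ℝ → X}, UniformContinuousOn v J → Bd S (fun t => v t - v (th t)) := fun hv =>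
    Bd.inc h hv id th 1 fun t ht => ⟨ht.1, h.th_mem ht.1 ht.2, by
      rw [abs_sub_comm]; exact th_le_one (hR.trans ht.2)⟩
  have ib : ∀ {v : ℝ → X}, UniformContinuousOn v J → Bd S (fun t => v (t + b) - v (th t + b)) :=
    fun hv => Bd.inc h hv (fun t => t + b) (fun t => th t + b) 1 fun t ht =>
      ⟨h.up _ ht.1 _ (by linarith), h.up _ (h.th_mem ht.1 ht.2) _ (by linarith), by
        rw [add_sub_add_right_eq_sub, abs_sub_comm]; exact th_le_one (hR.trans ht.2)⟩
  have ie : Bd S (fun t => (ee b t - ee b (th t)) • v1 (t + b)) := by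
    obtain ⟨C, hC, h1⟩ := growth h hv1
    refine ⟨2 * b * (‖v1 R‖ + C * (1 + b + R) + C * 2), fun t ht => ?_⟩
    have a1 := h1 _ (h.up _ ht.1 (t + b) (by linarith)) R hRJ
    have a2 : |t + b - R| ≤ |t| + b + R := by
      rw [abs_le]; constructor <;> linarith [le_abs_self t, neg_abs_le t]
    have a3 : ‖v1 (t + b)‖ ≤ ‖v1 R‖ + C * (1 + b + R) + C * |t| := by
      have := norm_sub_norm_le (v1 (t + b)) (v1 R)
      nlinarith
    have a4 := th_le_one (hR.trans ht.2)
    have a5 := th_close t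
    rw [norm_smul]
    refine (mul_le_mul (ee_lip hb _ _) a3 (norm_nonneg _) (by positivity)).trans ?_
    rw [abs_sub_comm, mul_assoc]
    gcongr
    have a6 : 0 ≤ ‖v1 R‖ + C * (1 + b + R) := by positivity
    nlinarith [mul_le_mul_of_nonneg_left a5 hC, mul_le_mul_of_nonneg_right a4 a6]
  have hE : Bd S (fun t => v2 t - v1 t - ee b t • v1 (t + b)) := by
    refine Bd.of_smul (((((i0 hu1).add (ib hu1)).sub (i0 hu2)).add
      ((((i0 hv2).sub (i0 hv1)).sub ((ib hv1).smul (fun t => ee b (th t)) (fun _ => norm_ee _ _))).sub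
        ie |>.smul g norm_g))) (fun t => 2 * g t) (fun t => by rw [norm_mul, norm_g]; simp) ?_
    intro t ht
    have e1 := e t ht.1
    have e2 := e _ (h.th_mem ht.1 ht.2)
    rw [g_add, g_th] at e2
    rw [g_add] at e1
    linear_combination (norm := module) e2 - e1
  let s := π / (2 * b)
  have hs : 0 < s := by positivity
  let S' := {t | t ∈ J ∧ R + s ≤ |t|}
  have hS' : ∀ t ∈ S', t ∈ S ∧ t + s ∈ S := by
    intro t ht
    refine ⟨⟨ht.1, by linarith [ht.2]⟩, h.up _ ht.1 _ (by linarith), ?_⟩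
    have := abs_sub_abs_le_abs_sub t (t + s)
    rw [show t - (t + s) = -s by ring, abs_neg, abs_of_pos hs] at this
    linarith [ht.2]
  have hE1 : Bd S' (fun t => v2 t - v1 t - ee b t • v1 (t + b)) :=
    hE.imp fun K hK t ht => hK t (hS' t ht).1
  have hE2 : Bd S' (fun t => v2 (t + s) - v1 (t + s) - ee b (t + s) • v1 (t + s + b)) :=
    hE.imp fun K hK t ht => hK _ (hS' t ht).2
  have is : ∀ {v : ℝ → X}, UniformContinuousOn v J → ∀ c, 0 ≤ c →
      Bd S' (fun t => v (t + c) - v (t + s + c)) :=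
    fun hv c hc => Bd.inc h hv (fun t => t + c) (fun t => t + s + c) s fun t ht =>
      ⟨h.up _ ht.1 _ (by linarith), h.up _ ht.1 _ (by linarith), by
        rw [show t + c - (t + s + c) = -s by ring, abs_neg, abs_of_pos hs]⟩
  have hF : Bd S' (fun t => v1 (t + b)) := by
    refine Bd.of_smul ((((hE2.sub hE1).add (is hv2 0 le_rfl)).sub (is hv1 0 le_rfl)).add
      ((is hv1 b hb.le).smul (ee b) (norm_ee b))) (fun t => 2 * ee b t)
      (fun t => by rw [norm_mul, norm_ee]; simp) ?_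
    intro t _
    simp only [add_zero]
    rw [ee_shift hb]
    module
  obtain ⟨K, hK⟩ := hF
  obtain ⟨C, hC, h1⟩ := growth h hv1
  refine ⟨max K (‖v1 R‖ + C * (1 + (R + s + b + R))), fun t ht => ?_⟩
  rcases le_or_gt |t| (R + s + b) with h2 | h2
  · refine le_max_of_le_right ?_
    have a1 := h1 t ht R hRJ
    have a2 : |t - R| ≤ R + s + b + R := by
      rw [abs_le] at h2 ⊢; constructor <;> linarith [h2.1, h2.2]
    have := norm_sub_norm_le (v1 t) (v1 R)
    nlinarith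
  · refine le_max_of_le_left ?_
    have a1 : t - b ∈ J := by
      rcases h.big ht (by linarith) with h3 | h3
      · simp [h3]
      · rw [abs_of_nonneg (by linarith)] at h2
        exact h.up _ hRJ _ (by linarith)
    have a2 : R + s ≤ |t - b| := by
      have := abs_sub_abs_le_abs_sub t b
      rw [abs_of_pos hb] at this; linarith
    simpa using hK (t - b) ⟨a1, a2⟩

end Pool.Agent.H.MP_840fa9_an
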