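import Pool.Agent.H.MP_840fa9_an.A

set_option autoImplicit false
set_option linter.unusedSectionVars false

namespace Pool.Agent.H.MP_840fa9_an

open Set Filter Topology Real MeasureTheory
open scoped Uniformity Pointwise

variable {J : Set ℝ} {R : ℝ} {X : Type*} [NormedAddCommGroup X] [NormedSpace ℂ X]

lemma uc_iff {F : ℝ → X} : UniformContinuousOn F J ↔
    Tendsto (fun p : ℝ × ℝ => F p.1 - F p.2) (𝓤 ℝ ⊓ 𝓟 (J ×ˢ J)) (𝓝 0) := by
  rw [UniformContinuousOn, tendsto_uniformity_iff_dist_tendsto_zero]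
  simp only [dist_eq_norm]
  exact tendsto_zero_iff_norm_tendsto_zero.symm

lemma ev_mem : ∀ᶠ p : ℝ × ℝ in 𝓤 ℝ ⊓ 𝓟 (J ×ˢ J), p.1 ∈ J ∧ p.2 ∈ J ∧ |p.1 - p.2| ≤ 1 := by
  filter_upwards [mem_inf_of_right (mem_principal_self (J ×ˢ J)),
    mem_inf_of_left (Metric.dist_mem_uniformity (α := ℝ) one_pos)] with p h1 h2
  exact ⟨h1.1, h1.2, le_of_lt h2⟩

lemma uc_congr {F G : ℝ → X} (h : UniformContinuousOn F J) (e : ∀ t ∈ J, F t = G t) :
    UniformContinuousOn G J := by
  rw [uc_iff] at h ⊢
  refine h.congr' ?_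
  filter_upwards [ev_mem] with p hp
  rw [e _ hp.1, e _ hp.2.1]

lemma uc_add {F G : ℝ → X} (h : UniformContinuousOn F J) (h' : UniformContinuousOn G J) :
    UniformContinuousOn (fun t => F t + G t) J := by
  rw [uc_iff] at h h' ⊢
  simpa [add_sub_add_comm] using h.add h'

lemma uc_sub {F G : ℝ → X} (h : UniformContinuousOn F J) (h' : UniformContinuousOn G J) :
    UniformContinuousOn (fun t => F t - G t) J := by
  rw [uc_iff] at h h' ⊢
  simpa [sub_sub_sub_comm] using h.sub h'

lemma uc_smul (h : Adm J R) {v : ℝ → X} (hv : UniformContinuousOn v J) {p : ℝ → ℂ}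
    (hp : Continuous p) (hp1 : ∀ t, ‖p t‖ ≤ 1) {M : ℝ} (hp0 : ∀ t, M ≤ |t| → p t = 0) :
    UniformContinuousOn (fun t => p t • v t) J := by
  have hc : HasCompactSupport p := HasCompactSupport.intro (isCompact_Icc (a := -M) (b := M))
    fun t ht => hp0 t (by
      by_contra h1
      exact ht (abs_le.mp (not_le.mp h1).le))
  have hu := (hc.uniformContinuous_of_continuous hp).uniformContinuousOn (s := J)
  obtain ⟨C, hC, h1⟩ := growth h hv
  have hRJ : R ∈ J := h.up _ h.pos _ (by linarith)
  have hR := h.two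
  rw [uc_iff] at hu hv ⊢
  rw [tendsto_zero_iff_norm_tendsto_zero] at hu hv
  have h2 := hv.add (hu.mul_const (‖v R‖ + C * (1 + (|M| + 1 + R))))
  rw [zero_mul, add_zero] at h2
  refine squeeze_zero_norm' ?_ h2
  filter_upwards [ev_mem] with q hq
  have e : p q.1 • v q.1 - p q.2 • v q.2 = p q.1 • (v q.1 - v q.2) + (p q.1 - p q.2) • v q.2 := by
    module
  rw [e]
  refine (norm_add_le _ _).trans (add_le_add ?_ ?_)
  · rw [norm_smul]; exact mul_le_of_le_one_left (norm_nonneg _) (hp1 _)
  · rw [norm_smul]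
    rcases le_or_gt |q.2| (|M| + 1) with h3 | h3
    · gcongr
      have a1 := h1 _ hq.2.1 R hRJ
      have a2 : |q.2 - R| ≤ |M| + 1 + R := by
        rw [abs_le] at h3 ⊢; constructor <;> linarith [h3.1, h3.2, abs_nonneg M]
      have := norm_sub_norm_le (v q.2) (v R)
      nlinarith
    · have a1 := abs_sub_abs_le_abs_sub q.2 q.1
      rw [abs_sub_comm] at a1
      rw [hp0 q.1 (by linarith [le_abs_self M, hq.2.2]), hp0 q.2 (by linarith [le_abs_self M])]
      simp

lemma uc_decay (h : Adm J R) {v : ℝ → X} (hv : UniformContinuousOn v J) {p : ℝ → ℂ}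
    (hp : Continuous p) (hp1 : ∀ t, ‖p t‖ ≤ 1) (hp0 : ∀ t, |t| ≤ R → p t = 0) :
    UniformContinuousOn (fun t => p t • (v t - v (th t))) J := by
  classical
  have hR := h.two
  let F : ℝ → X := J.indicator fun t => p t • (v t - v (th t))
  have hc : Continuous F := by
    refine continuous_iff_continuousAt.mpr fun t => ?_
    rcases lt_or_ge |t| R with h1 | h1
    · refine ContinuousAt.congr (f := fun _ => 0) continuousAt_const ?_
      filter_upwards [(isOpen_lt continuous_abs continuous_const).mem_nhds h1] with s hs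
      simp [F, indicator, hp0 s (le_of_lt hs)]
    · by_cases ht : t ∈ J
      · obtain ⟨n1, n2⟩ := h.nhds ht h1
        have t0 : t ≠ 0 := by rintro rfl; simp at h1; linarith
        refine ContinuousAt.congr (f := fun t => p t • (v t - v (th t))) ?_ ?_
        · exact hp.continuousAt.smul ((hv.continuousOn.continuousAt n1).sub
            ((hv.continuousOn.continuousAt n2).comp (cont_th t0)))
        · filter_upwards [n1] with s hs
          simp [F, hs]
      · refine ContinuousAt.congr (f := fun _ => 0) continuousAt_const ?_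
        filter_upwards [h.out ht h1] with s hs
        simp [F, show s ∉ J from hs]
  have hl : Tendsto F (cocompact ℝ) (𝓝 0) := by
    rw [Metric.tendsto_nhds]
    intro ε hε
    obtain ⟨δ, hδ, h1⟩ := Metric.uniformContinuousOn_iff.mp hv ε hε
    filter_upwards [(isCompact_Icc (a := -(R + 3 / δ)) (b := R + 3 / δ)).compl_mem_cocompact] with t ht
    have h2 : R + 3 / δ < |t| := by
      by_contra h3; exact ht (abs_le.mp (not_lt.mp h3))
    have h3 : 0 < 3 / δ := by positivity
    rw [dist_zero_right]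
    by_cases htJ : t ∈ J
    · simp only [F, indicator, if_pos htJ, norm_smul]
      refine (mul_le_of_le_one_left (norm_nonneg _) (hp1 _)).trans_lt ?_
      rw [← dist_eq_norm]
      refine h1 _ htJ _ (h.th_mem htJ (by linarith)) ?_
      rw [Real.dist_eq, abs_sub_comm]
      have h4 := th_close t
      have h5 : 3 < δ * |t| := by rw [← div_lt_iff₀' hδ]; linarith
      by_contra h6
      nlinarith [not_lt.mp h6, abs_nonneg t]
    · simp [F, htJ, hε]
  exact uc_congr (hc.uniformContinuous_of_tendsto_cocompact hl).uniformContinuousOn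
    fun t ht => by simp [F, ht]

noncomputable def chi (R t : ℝ) : ℂ := ((min 1 (max 0 (|t| - R)) : ℝ) : ℂ)

lemma cont_chi : Continuous (chi R) := by unfold chi; fun_prop

lemma chi_le (t : ℝ) : ‖chi R t‖ ≤ 1 := by
  rw [chi, Complex.norm_real, Real.norm_of_nonneg (by positivity)]; exact min_le_left _ _

lemma chi_le' (t : ℝ) : ‖1 - chi R t‖ ≤ 1 := by
  rw [chi, ← Complex.ofReal_one, ← Complex.ofReal_sub, Complex.norm_real,
    Real.norm_of_nonneg (sub_nonneg.mpr (min_le_left _ _))]
  have : 0 ≤ min 1 (max 0 (|t| - R)) := by positivity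
  linarith

lemma chi_zero {t : ℝ} (h : |t| ≤ R) : chi R t = 0 := by
  rw [chi, max_eq_left (by linarith)]; simp

lemma chi_one {t : ℝ} (h : R + 1 ≤ |t|) : chi R t = 1 := by
  rw [chi, min_eq_left (le_max_of_le_right (by linarith))]; simp

noncomputable def cc (R t : ℝ) : ℂ := chi R t * (g t)⁻¹ / 2

lemma g_ne (t : ℝ) : g t ≠ 0 := Complex.exp_ne_zero _

lemma cc_le (t : ℝ) : ‖cc R t‖ ≤ 1 := by
  rw [cc, norm_div, norm_mul, norm_inv, norm_g]
  have := chi_le (R := R) t
  simp only [inv_one, mul_one, Complex.norm_ofNat]; linarith [norm_nonneg (chi R t)]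

noncomputable def Vop (R : ℝ) (w : ℝ → X) (t : ℝ) : X := cc R t • (w t - w (th t))

def InA (J : Set ℝ) (w : ℝ → X) : Prop :=
  ∃ u v : ℝ → X, UniformContinuousOn u J ∧ UniformContinuousOn v J ∧
    ∀ t ∈ J, w t = u t + g t • v t

lemma ops (h : Adm J R) {w : ℝ → X} (hw : InA J w) :
    UniformContinuousOn (Vop R w) J ∧ UniformContinuousOn (fun t => w t - g t • Vop R w t) J := by
  obtain ⟨u, v, hu, hv, e⟩ := hw
  have hg := cont_g
  have hc := cont_chi (R := R)
  have half : ∀ t, ‖chi R t / 2‖ ≤ 1 := fun t => by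
    rw [norm_div]; have := chi_le (R := R) t
    simp only [Complex.norm_ofNat]; linarith [norm_nonneg (chi R t)]
  have eV : ∀ t ∈ J, Vop R w t = v t - (1 - chi R t) • v t + cc R t • (u t - u (th t))
      - (chi R t / 2) • (v t - v (th t)) := by
    intro t ht
    rcases le_total |t| R with h1 | h1
    · simp [Vop, cc, chi_zero h1]
    · rw [Vop, e t ht, e _ (h.th_mem ht h1), g_th, cc]
      have := mul_inv_cancel₀ (g_ne t)
      match_scalars <;> first | ring1 | linear_combination (chi R t / 2) * this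
  constructor
  · refine uc_congr (uc_sub (uc_add (uc_sub hv (uc_smul h hv (p := fun t => 1 - chi R t)
      (by fun_prop) chi_le' (M := R + 1) (fun t ht => by simp [chi_one ht])))
      (uc_decay h hu (p := cc R) ?_ cc_le (fun t ht => by simp [cc, chi_zero ht])))
      (uc_decay h hv (p := fun t => chi R t / 2) (by fun_prop) half
        (fun t ht => by simp [chi_zero ht]))) (fun t ht => (eV t ht).symm)
    exact (hc.mul (hg.inv₀ g_ne)).div_const _
  · refine uc_congr (uc_add (uc_sub (uc_add hu (uc_smul h hv (p := fun t => g t * (1 - chi R t))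
      (by fun_prop) (fun t => by rw [norm_mul, norm_g, one_mul]; exact chi_le' t) (M := R + 1)
        (fun t ht => by simp [chi_one ht])))
      (uc_decay h hu (p := fun t => chi R t / 2) (by fun_prop) half
        (fun t ht => by simp [chi_zero ht])))
      (uc_decay h hv (p := fun t => g t * (chi R t / 2)) (by fun_prop)
        (fun t => by rw [norm_mul, norm_g, one_mul]; exact half t)
        (fun t ht => by simp [chi_zero ht]))) (fun t ht => ?_)
    rw [eV t ht, e t ht, cc]
    have := mul_inv_cancel₀ (g_ne t)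
    match_scalars <;> first | ring1 | linear_combination (chi R t / 2) * this | linear_combination (-chi R t / 2) * this

def Osc (J : Set ℝ) (f : ℝ → X) (a K : ℝ) : Prop :=
  ∀ s ∈ J, ∀ t ∈ J, |s - t| ≤ 1 → ‖(f (s + a) - f s) - (f (t + a) - f t)‖ ≤ K

lemma osc_fin (h : Adm J R) {f : ℝ → X} (hA : ∀ a, 0 < a → InA J (fun t => f (t + a) - f t))
    {b : ℝ} (hb : 0 < b) : ∃ K : ℕ, Osc J f b K := by
  obtain ⟨u1, v1, hu1, hv1, e1⟩ := hA b hb
  obtain ⟨u2, v2, hu2, hv2, e2⟩ := hA (b + b) (by linarith)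
  obtain ⟨K, hK⟩ := v_bdd h hb hu1 hv1 hu2 hv2 (fun t ht => by
    rw [← e1 t ht, ← e2 t ht, ← e1 _ (h.up _ ht _ (by linarith))]
    simp only [add_assoc]; abel)
  obtain ⟨C, hC, h1⟩ := growth h hu1
  obtain ⟨N, hN⟩ := exists_nat_ge (C * 2 + (K + K))
  refine ⟨N, fun s hs t ht hst => le_trans ?_ hN⟩
  have a1 := e1 s hs
  have a2 := e1 t ht
  simp only at a1 a2
  rw [a1, a2, add_sub_add_comm]
  refine (norm_add_le _ _).trans (add_le_add ((h1 s hs t ht).trans ?_) ((norm_sub_le _ _).trans ?_))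
  · gcongr; linarith
  · rw [norm_smul, norm_smul, norm_g, norm_g, one_mul, one_mul]
    exact add_le_add (hK s hs) (hK t ht)

lemma InA.cont {w : ℝ → X} (hw : InA J w) : ContinuousOn w J := by
  obtain ⟨u, v, hu, hv, e⟩ := hw
  exact (hu.continuousOn.add (cont_g.continuousOn.smul hv.continuousOn)).congr e

lemma shift_int (h : Adm J R) {f : ℝ → X}
    (hf : ∀ a ∈ J, ∀ b ∈ J, IntegrableOn f (Icc a b)) {s : ℝ} (hs : s ∈ J) {c : ℝ} (hc : 0 ≤ c) :
    IntervalIntegrable (fun a => f (s + a)) volume 0 c := by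
  have h1 : IntervalIntegrable f volume s (s + c) := by
    rw [intervalIntegrable_iff_integrableOn_Icc_of_le (by linarith)]
    exact hf s hs _ (h.up _ hs _ (by linarith))
  simpa using h1.comp_add_left s

lemma osc_unif (h : Adm J R) {f : ℝ → X}
    (hf : ∀ a ∈ J, ∀ b ∈ J, IntegrableOn f (Icc a b))
    (hA : ∀ a, 0 < a → InA J (fun t => f (t + a) - f t)) (c : ℝ) :
    ∃ K, ∀ a, 0 < a → a ≤ c → Osc J f a K := by
  let D : Set (ℝ × ℝ) := {p | p.1 ∈ J ∧ p.2 ∈ J ∧ |p.1 - p.2| ≤ 1}
  obtain ⟨T, hT1, hT2, hT3⟩ := (TopologicalSpace.IsSeparable.of_separableSpace D).exists_countable_dense_subset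
  let S : ℕ → Set ℝ := fun N => ⋂ p ∈ T, {a | ‖(f (p.1 + a) - f p.1) - (f (p.2 + a) - f p.2)‖ ≤ N}
  have hS : ∀ N, NullMeasurableSet (S N) (volume.restrict (Ioc (0 : ℝ) 1)) := by
    intro N
    refine NullMeasurableSet.biInter hT2 fun p hp => ?_
    have m1 := (shift_int h hf (hT1 hp).1 zero_le_one).1.aestronglyMeasurable
    have m2 := (shift_int h hf (hT1 hp).2.1 zero_le_one).1.aestronglyMeasurable
    exact nullMeasurableSet_le ((m1.sub aestronglyMeasurable_const).sub
      (m2.sub aestronglyMeasurable_const)).norm.aemeasurable aemeasurable_const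
  have hSO : ∀ (N : ℕ) a, 0 < a → a ∈ S N → Osc J f a N := by
    intro N a ha haS s hs t ht hst
    have hc := (hA a ha).cont
    have hc' : ContinuousWithinAt (fun p : ℝ × ℝ => ‖(f (p.1 + a) - f p.1) - (f (p.2 + a) - f p.2)‖)
        T (s, t) := by
      have c1 := ContinuousWithinAt.comp (f := fun p : ℝ × ℝ => p.1) (s := T) (x := (s, t)) (hc s hs)
        continuousWithinAt_fst fun p hp => (hT1 hp).1
      have c2 := ContinuousWithinAt.comp (f := fun p : ℝ × ℝ => p.2) (s := T) (x := (s, t)) (hc t ht)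
        continuousWithinAt_snd fun p hp => (hT1 hp).2.1
      exact (c1.sub c2).norm
    exact ContinuousWithinAt.closure_le (hT3 (show (s, t) ∈ D from ⟨hs, ht, hst⟩)) hc'
      continuousWithinAt_const fun p hp => mem_iInter₂.mp haS p hp
  obtain ⟨N, hN⟩ : ∃ N, volume.restrict (Ioc (0 : ℝ) 1) (S N) ≠ 0 := by
    by_contra hc
    push Not at hc
    have h1 : volume.restrict (Ioc (0 : ℝ) 1) (Ioc 0 1) = 0 := by
      refine measure_mono_null (fun a ha => ?_) (measure_iUnion_null hc)
      obtain ⟨K, hK⟩ := osc_fin h hA ha.1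
      exact mem_iUnion.mpr ⟨K, mem_iInter₂.mpr fun p hp => hK _ (hT1 hp).1 _ (hT1 hp).2.1 (hT1 hp).2.2⟩
    simp at h1
  obtain ⟨E, hE1, hE2, hE3⟩ := (hS N).exists_measurable_subset_ae_eq
  rw [← measure_congr hE3, Measure.restrict_apply hE2] at hN
  have hst := Measure.sub_mem_nhds_zero_of_addHaar_pos volume _ (hE2.inter measurableSet_Ioc)
    (pos_iff_ne_zero.mpr hN)
  obtain ⟨η, hη, hη1⟩ := Metric.mem_nhds_iff.mp hst
  have small : ∀ d, 0 < d → d < η → Osc J f d (N + N) := by
    intro d hd hd' s hs t ht hst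
    obtain ⟨a, ha, b, hb, e⟩ := hη1 (show d ∈ Metric.ball 0 η by simpa [abs_of_pos hd] using hd')
    have e' : a = d + b := by simp only at e; linarith
    have a1 := hSO N a ha.2.1 (hE1 ha.1) s hs t ht hst
    have a2 := hSO N b hb.2.1 (hE1 hb.1) (s + d) (h.up _ hs _ (by linarith)) (t + d)
      (h.up _ ht _ (by linarith)) (by simpa using hst)
    rw [e', ← add_assoc, ← add_assoc] at a1
    refine le_trans (le_of_eq ?_) ((norm_sub_le _ _).trans (add_le_add a1 a2))
    congr 1; abel
  have mult : ∀ d, 0 < d → d < η → ∀ k : ℕ, Osc J f (k * d) (k * (N + N)) := by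
    intro d hd hd' k
    induction k with
    | zero => intro s _ t _ _; simp
    | succ k ih =>
      intro s hs t ht hst
      have hk : 0 ≤ k * d := by positivity
      have a1 := ih s hs t ht hst
      have a2 := small d hd hd' (s + k * d) (h.up _ hs _ (by linarith)) (t + k * d)
        (h.up _ ht _ (by linarith)) (by simpa using hst)
      push_cast
      rw [add_mul, one_mul, add_mul, one_mul, ← add_assoc, ← add_assoc]
      refine le_trans (le_of_eq ?_) ((norm_add_le _ _).trans (add_le_add a1 a2))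
      congr 1; abel
  obtain ⟨k, hk⟩ := exists_nat_gt (|c| / η)
  have hk0 : (0 : ℝ) < k := lt_of_le_of_lt (by positivity) hk
  refine ⟨k * (N + N), fun a ha hac => ?_⟩
  have := mult (a / k) (by positivity) (by
    rw [div_lt_iff₀ hη] at hk
    rw [div_lt_iff₀ hk0]; linarith [le_abs_self c]) k
  rwa [mul_div_cancel₀ _ hk0.ne'] at this

lemma core [CompleteSpace X] (h : Adm J R) {f : ℝ → X}
    (hf : ∀ a ∈ J, ∀ b ∈ J, IntegrableOn f (Icc a b))
    (hA : ∀ a, 0 < a → InA J (fun t => f (t + a) - f t)) {c : ℝ} (hc : 0 < c) :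
    InA J (fun t => ∫ a in (0 : ℝ)..c, (f (t + a) - f t)) := by
  obtain ⟨K, hK⟩ := osc_unif h hf hA c
  have hR := h.two
  have wi : ∀ t ∈ J, IntervalIntegrable (fun a => f (t + a) - f t) volume 0 c := fun t ht =>
    (shift_int h hf ht hc.le).sub intervalIntegrable_const
  have Vi : ∀ t ∈ J, IntervalIntegrable (fun a => Vop R (fun t => f (t + a) - f t) t) volume 0 c := by
    intro t ht
    rcases le_total |t| R with h1 | h1
    · simp [Vop, cc, chi_zero h1]
    · exact ((wi t ht).sub (wi _ (h.th_mem ht h1))).smul (cc R t)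
  have Vb : ∀ a, 0 < a → a ≤ c → ∀ t ∈ J, ‖Vop R (fun t => f (t + a) - f t) t‖ ≤ K := by
    intro a ha hac t ht
    rcases le_total |t| R with h1 | h1
    · have := hK a ha hac t ht t ht (by simp)
      simpa [Vop, cc, chi_zero h1] using this
    · rw [Vop, norm_smul]
      refine (mul_le_of_le_one_left (norm_nonneg _) (cc_le _)).trans ?_
      exact hK a ha hac t ht _ (h.th_mem ht h1) (by rw [abs_sub_comm]; exact th_le_one (hR.trans h1))
  have dct : ∀ G : ℝ → ℝ → X, (∀ t ∈ J, IntervalIntegrable (fun a => G a t) volume 0 c) →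
      (∀ a, 0 < a → UniformContinuousOn (G a) J) → ∀ M : ℝ,
      (∀ a, 0 < a → a ≤ c → ∀ s ∈ J, ∀ t ∈ J, |s - t| ≤ 1 → ‖G a s - G a t‖ ≤ M) →
      UniformContinuousOn (fun t => ∫ a in (0 : ℝ)..c, G a t) J := by
    intro G h1 h2 M h3
    rw [uc_iff]
    have := intervalIntegral.tendsto_integral_filter_of_dominated_convergence (μ := volume)
      (a := 0) (b := c) (l := 𝓤 ℝ ⊓ 𝓟 (J ×ˢ J)) (F := fun p a => G a p.1 - G a p.2)
      (f := fun _ => 0) (fun _ => M) ?_ ?_ intervalIntegrable_const ?_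
    · rw [intervalIntegral.integral_zero] at this
      refine this.congr' ?_
      filter_upwards [ev_mem] with p hp
      exact intervalIntegral.integral_sub (h1 _ hp.1) (h1 _ hp.2.1)
    · filter_upwards [ev_mem] with p hp
      exact (intervalIntegrable_iff.mp ((h1 _ hp.1).sub (h1 _ hp.2.1))).aestronglyMeasurable
    · filter_upwards [ev_mem] with p hp
      refine Eventually.of_forall fun a ha => ?_
      rw [uIoc_of_le hc.le] at ha
      exact h3 a ha.1 ha.2 _ hp.1 _ hp.2.1 hp.2.2
    · refine Eventually.of_forall fun a ha => ?_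
      rw [uIoc_of_le hc.le] at ha
      exact uc_iff.mp (h2 a ha.1)
  refine ⟨fun t => ∫ a in (0 : ℝ)..c, (f (t + a) - f t - g t • Vop R (fun t => f (t + a) - f t) t),
    fun t => ∫ a in (0 : ℝ)..c, Vop R (fun t => f (t + a) - f t) t, ?_, ?_, fun t ht => ?_⟩
  · refine dct (fun a t => f (t + a) - f t - g t • Vop R (fun t => f (t + a) - f t) t)
      (fun t ht => (wi t ht).sub ((Vi t ht).smul (g t))) (fun a ha => (ops h (hA a ha)).2)
      (K + (K + K)) fun a ha hac s hs t ht hst => ?_
    rw [sub_sub_sub_comm]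
    refine (norm_sub_le _ _).trans (add_le_add (hK a ha hac s hs t ht hst)
      ((norm_sub_le _ _).trans ?_))
    rw [norm_smul, norm_smul, norm_g, norm_g, one_mul, one_mul]
    exact add_le_add (Vb a ha hac s hs) (Vb a ha hac t ht)
  · exact dct (fun a t => Vop R (fun t => f (t + a) - f t) t) Vi (fun a ha => (ops h (hA a ha)).1)
      (K + K) fun a ha hac s hs t ht _ =>
        (norm_sub_le _ _).trans (add_le_add (Vb a ha hac s hs) (Vb a ha hac t ht))
  · simp only
    rw [intervalIntegral.integral_sub (g := fun a => g t • Vop R (fun t => f (t + a) - f t) t)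
      (wi t ht) ((Vi t ht).smul (g t)), intervalIntegral.integral_smul]
    abel

lemma adm (hJ : J = univ ∨ ∃ α, J = Ici α ∨ J = Ioi α) : ∃ R, Adm J R := by
  rcases hJ with rfl | ⟨α, rfl | rfl⟩
  · exact ⟨2, le_rfl, by simp, by simp, Or.inl rfl⟩
  · refine ⟨|α| + 2, by linarith [abs_nonneg α], fun s hs t h => le_trans hs h, ?_, Or.inr fun t ht => ?_⟩
    · show α ≤ _
      linarith [le_abs_self α]
    · have : α ≤ t := ht
      linarith [neg_abs_le α]
  · refine ⟨|α| + 2, by linarith [abs_nonneg α], fun s hs t h => lt_of_lt_of_le hs h, ?_,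
      Or.inr fun t ht => ?_⟩
    · show α < _
      linarith [le_abs_self α]
    · have : α < t := ht
      linarith [neg_abs_le α]

theorem main (J : Set ℝ) (hJ : J = univ ∨ ∃ α, J = Ici α ∨ J = Ioi α)
    (X : Type*) [NormedAddCommGroup X] [NormedSpace ℂ X] [CompleteSpace X] (f : ℝ → X)
    (hf : ∀ a ∈ J, ∀ b ∈ J, IntegrableOn f (Icc a b))
    (hA : ∀ a, 0 < a → InA J (fun t => f (t + a) - f t)) (c : ℝ) (hc : 0 < c) :
    InA J (fun t => f t - (1 / c : ℝ) • ∫ s in t..t + c, f s) := by
  obtain ⟨R, h⟩ := adm hJ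
  obtain ⟨u, v, hu, hv, e⟩ := core h hf hA hc
  refine ⟨fun t => (-(1 / c) : ℝ) • u t, fun t => (-(1 / c) : ℝ) • v t,
    (uniformContinuous_const_smul _).comp_uniformContinuousOn hu,
    (uniformContinuous_const_smul _).comp_uniformContinuousOn hv, fun t ht => ?_⟩
  have e1 := e t ht
  simp only at e1 ⊢
  rw [intervalIntegral.integral_sub (shift_int h hf ht hc.le) intervalIntegrable_const,
    intervalIntegral.integral_comp_add_left, intervalIntegral.integral_const, add_zero, sub_zero] at e1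
  rw [smul_comm (g t), ← smul_add, ← e1, neg_smul, smul_sub, smul_smul, one_div,
    inv_mul_cancel₀ hc.ne', one_smul, neg_sub]

end Pool.Agent.H.MP_840fa9_an
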